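import Mathlib

/-!
# The (I)-envelope of a set of functionals and the two separation quantities
-/

set_option autoImplicit false

open Set Filter Topology

namespace Pool.Agent.H87.Envelope

variable {𝕜 : Type} [RCLike 𝕜] {X : Type} [NormedAddCommGroup X] [NormedSpace 𝕜 X]

/-- The weak* closure of a subset of the dual space. -/
def wclosure (C : Set (StrongDual 𝕜 X)) : Set (StrongDual 𝕜 X) :=
  StrongDual.toWeakDual ⁻¹' closure (StrongDual.toWeakDual '' C)

/-- The set `K(𝒜)` of a sequence `𝒜` of subsets of the dual: the norm closure of the convex hull of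
the union of the weak* closures of the convex hulls of the sets `𝒜 k`. -/
def envK (𝒜 : ℕ → Set (StrongDual 𝕜 X)) : Set (StrongDual 𝕜 X) :=
  closure (convexHull ℝ (⋃ k, wclosure (convexHull ℝ (𝒜 k))))

/-- The (I)-envelope of `A`: the intersection of the sets `K(𝒜)` over all countable covers
`𝒜` of `A` (sequences of sets with union `A`). -/
def Ienv (A : Set (StrongDual 𝕜 X)) : Set (StrongDual 𝕜 X) :=
  {ζ | ∀ 𝒜 : ℕ → Set (StrongDual 𝕜 X), ⋃ k, 𝒜 k = A → ζ ∈ envK 𝒜}

/-- `d₁(η)`: the norm distance of `η` to the (I)-envelope of `A`. -/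
noncomputable def dOne (A : Set (StrongDual 𝕜 X)) (η : StrongDual 𝕜 X) : EReal :=
  ((Metric.infEDist η (Ienv A) : ENNReal) : EReal)

/-- `s_η(x)`, for a sequence `x` of vectors. -/
noncomputable def sep (A : Set (StrongDual 𝕜 X)) (η : StrongDual 𝕜 X) (x : ℕ → X) : EReal :=
  (⨅ k, ((RCLike.re (η (x k)) : ℝ) : EReal)) -
    ⨆ ξ ∈ A, limsup (fun k => ((RCLike.re (ξ (x k)) : ℝ) : EReal)) atTop

/-- `d₂(η)`: the supremum of `s_η(x)` over all sequences in the closed unit ball. -/
noncomputable def dTwo (A : Set (StrongDual 𝕜 X)) (η : StrongDual 𝕜 X) : EReal :=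
  ⨆ x : {x : ℕ → X // ∀ k, ‖x k‖ ≤ 1}, sep A η x.1

end Pool.Agent.H87.Envelope
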