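import Mathlib
import Pool.Agent.H87.Envelope.Defs

set_option autoImplicit false

open Set Filter Topology

namespace Pool.Agent.H87.Envelope

/-! ## A vanishing criterion on the (I)-envelope -/

section general

variable {𝕜 : Type} [RCLike 𝕜] {X : Type} [NormedAddCommGroup X] [NormedSpace 𝕜 X]

/-- If `A` is covered by countably many sets on the `k`-th of which all the vectors `g m`, `m ≥ k`,
take the value `a`, and the sequence `g` is bounded, then every element of the (I)-envelope tends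
to `a` along `g`. -/
lemma tendsto_of_mem_Ienv {A : Set (StrongDual 𝕜 X)} {ζ : StrongDual 𝕜 X} (hζ : ζ ∈ Ienv A)
    (g : ℕ → X) (C : ℝ) (hC : ∀ m, ‖g m‖ ≤ C) (a : 𝕜) (𝒜 : ℕ → Set (StrongDual 𝕜 X))
    (hcov : ⋃ k, 𝒜 k = A) (hvan : ∀ k, ∀ ξ ∈ 𝒜 k, ∀ m, k ≤ m → ξ (g m) = a) :
    Tendsto (fun m => ζ (g m)) atTop (𝓝 a) := by
  have hmem := hζ 𝒜 hcov
  have hC0 : 0 ≤ C := (norm_nonneg _).trans (hC 0)
  -- convexity
  have hcvx : ∀ (x : X) (ξ₁ ξ₂ : StrongDual 𝕜 X) (p q : ℝ), p + q = 1 → ξ₁ x = a → ξ₂ x = a →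
      (p • ξ₁ + q • ξ₂) x = a := by
    intro x ξ₁ ξ₂ p q hpq h₁ h₂
    have : (p • ξ₁ + q • ξ₂) x = (p : 𝕜) * ξ₁ x + (q : 𝕜) * ξ₂ x := by
      simp [RCLike.real_smul_eq_coe_mul]
    rw [this, h₁, h₂, ← add_mul, ← RCLike.ofReal_add, hpq]
    simp
  -- the convex hull consists of functionals eventually taking the value `a` on `g`
  have hconv : convexHull ℝ (⋃ k, wclosure (convexHull ℝ (𝒜 k))) ⊆
      {ζ' : StrongDual 𝕜 X | ∃ k, ∀ m, k ≤ m → ζ' (g m) = a} := by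
    apply convexHull_min
    · intro ζ' hζ'
      obtain ⟨k, hk⟩ := Set.mem_iUnion.1 hζ'
      refine ⟨k, fun m hm => ?_⟩
      have hcl : IsClosed {φ : WeakDual 𝕜 X | φ (g m) = a} :=
        isClosed_eq (WeakDual.eval_continuous (g m)) continuous_const
      have hsub : StrongDual.toWeakDual '' (convexHull ℝ (𝒜 k)) ⊆
          {φ : WeakDual 𝕜 X | φ (g m) = a} := by
        rintro _ ⟨ξ, hξ, rfl⟩
        have : convexHull ℝ (𝒜 k) ⊆ {ξ : StrongDual 𝕜 X | ξ (g m) = a} := by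
          apply convexHull_min
          · intro ξ hξ; exact hvan k ξ hξ m hm
          · intro ξ₁ h₁ ξ₂ h₂ p q _ _ hpq
            exact hcvx _ _ _ _ _ hpq h₁ h₂
        exact this hξ
      exact closure_minimal hsub hcl hk
    · intro ξ₁ h₁ ξ₂ h₂ p q _ _ hpq
      obtain ⟨k₁, h₁⟩ := h₁
      obtain ⟨k₂, h₂⟩ := h₂
      exact ⟨max k₁ k₂, fun m hm => hcvx _ _ _ _ _ hpq (h₁ m ((le_max_left _ _).trans hm))
        (h₂ m ((le_max_right _ _).trans hm))⟩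
  rw [Metric.tendsto_atTop]
  intro δ hδ
  obtain ⟨ζ', hζ', hd⟩ := Metric.mem_closure_iff.1 hmem (δ / (C + 1)) (by positivity)
  obtain ⟨k, hk⟩ := hconv hζ'
  refine ⟨k, fun m hm => ?_⟩
  rw [dist_eq_norm]
  have h1 : ζ (g m) - a = (ζ - ζ') (g m) := by simp [hk m hm]
  rw [h1]
  calc ‖(ζ - ζ') (g m)‖ ≤ ‖ζ - ζ'‖ * ‖g m‖ := (ζ - ζ').le_opNorm _
    _ ≤ ‖ζ - ζ'‖ * C := mul_le_mul_of_nonneg_left (hC m) (norm_nonneg _)
    _ ≤ ‖ζ - ζ'‖ * (C + 1) := by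
        apply mul_le_mul_of_nonneg_left _ (norm_nonneg _); linarith
    _ < δ := by
        rw [dist_eq_norm] at hd
        rwa [lt_div_iff₀ (by positivity)] at hd

end general

/-! ## The space -/

/-- branches -/
abbrev T := ℕ → ℕ

/-- coordinates: `(none, t)` is the branch `t`, and `(some n, t)` the node `t|n`. -/
abbrev I := Option ℕ × T

lemma rec_choice (m : ℕ → T → ℕ) : ∃ u : T, ∀ n, ∃ t : T, (∀ i < n, u i = t i) ∧ u n = m n t := by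
  let t : ℕ → T := fun n => Nat.rec (fun _ => 0) (fun n t => Function.update t n (m n t)) n
  have ht : ∀ n, t (n + 1) = Function.update (t n) n (m n (t n)) := fun n => rfl
  have hu : ∀ n i, i < n → t n i = t (i + 1) i := by
    intro n
    induction n with
    | zero => intro i hi; exact absurd hi (Nat.not_lt_zero _)
    | succ n ih =>
      intro i hi
      rcases Nat.lt_succ_iff_lt_or_eq.1 hi with h | h
      · rw [ht n, Function.update_of_ne (by omega), ih i h]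
      · rw [h]
  refine ⟨fun n => t (n + 1) n, fun n => ⟨t n, fun i hi => (hu n i hi).symm, ?_⟩⟩
  simp [ht]

/-- The abstract form of the lower bound. -/
lemma one_le_norm_of {𝕜 : Type} [RCLike 𝕜] {X : Type} [NormedAddCommGroup X] [NormedSpace 𝕜 X]
    (ζ : StrongDual 𝕜 X) (c : ℕ → T → X) (e : T → X)
    (hcongr : ∀ n b b', (∀ i < n, b i = b' i) → c n b = c n b')
    (ha : ∀ b, ζ (c 0 b) = 1)
    (hb : ∀ (n : ℕ) (b : T), Tendsto (fun m => ζ (c n b - c (n + 1) (Function.update b n m)))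
      atTop (𝓝 0))
    (hc : ∀ b : T, Tendsto (fun n => ζ (c n b - e b)) atTop (𝓝 0))
    (he : ∀ b, ‖e b‖ ≤ 1) : 1 ≤ ‖ζ‖ := by
  apply le_of_forall_pos_le_add
  intro δ hδ
  have hex : ∀ (n : ℕ) (b : T), ∃ m : ℕ,
      ‖ζ (c n b - c (n + 1) (Function.update b n m))‖ ≤ δ / 2 * (1 / 2) ^ n := by
    intro n b
    have := (hb n b).norm
    rw [norm_zero] at this
    have h2 := (this.eventually (gt_mem_nhds (show (0 : ℝ) < δ / 2 * (1 / 2) ^ n by positivity)))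
    obtain ⟨m, hm⟩ := h2.exists
    exact ⟨m, hm.le⟩
  choose m hm using hex
  obtain ⟨b, hbm⟩ := rec_choice m
  have hstep : ∀ n, ‖ζ (c n b - c (n + 1) b)‖ ≤ δ / 2 * (1 / 2) ^ n := by
    intro n
    obtain ⟨t, ht1, ht2⟩ := hbm n
    have h1 : c n b = c n t := hcongr n b t ht1
    have h2 : c (n + 1) b = c (n + 1) (Function.update t n (m n t)) := by
      apply hcongr
      intro i hi
      by_cases hin : i = n
      · subst hin; simp [ht2]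
      · rw [Function.update_of_ne hin]; exact ht1 i (by omega)
    rw [h1, h2]
    exact hm n t
  have hsum : ∀ n, ‖ζ (c 0 b - c n b)‖ ≤ δ * (1 - (1 / 2) ^ n) := by
    intro n
    induction n with
    | zero => simp
    | succ n ih =>
      have e : c 0 b - c (n + 1) b = (c 0 b - c n b) + (c n b - c (n + 1) b) := by abel
      rw [e, map_add]
      calc _ ≤ _ := norm_add_le _ _
        _ ≤ δ * (1 - (1 / 2) ^ n) + δ / 2 * (1 / 2) ^ n := add_le_add ih (hstep n)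
        _ = _ := by ring
  have hlim : Tendsto (fun n => ζ (c 0 b - c n b)) atTop (𝓝 (1 - ζ (e b))) := by
    have h1 := (hc b).const_sub (1 - ζ (e b))
    rw [sub_zero] at h1
    refine h1.congr (fun n => ?_)
    simp only [map_sub, ha b]; ring
  have hle : ‖1 - ζ (e b)‖ ≤ δ := by
    refine le_of_tendsto hlim.norm (Filter.Eventually.of_forall (fun n => (hsum n).trans ?_))
    have : (0 : ℝ) ≤ (1 / 2) ^ n := by positivity
    nlinarith
  have h1 : ‖ζ (e b)‖ ≤ ‖ζ‖ := by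
    calc _ ≤ ‖ζ‖ * ‖e b‖ := ζ.le_opNorm _
      _ ≤ ‖ζ‖ * 1 := mul_le_mul_of_nonneg_left (he b) (norm_nonneg _)
      _ = _ := mul_one _
  calc (1 : ℝ) = ‖(1 : 𝕜)‖ := by simp
    _ = ‖ζ (e b) + (1 - ζ (e b))‖ := by congr 1; ring
    _ ≤ _ := norm_add_le _ _
    _ ≤ ‖ζ‖ + δ := add_le_add h1 hle

variable (𝕜 : Type) [RCLike 𝕜]

abbrev E := lp (fun _ : I => 𝕜) ⊤

variable {𝕜}

/-- The limit condition at all nodes. -/
def Cond (ε : ℝ) (g : I → 𝕜) : Prop :=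
  ∀ (n : ℕ) (t : T) (δ : ℝ), 0 < δ → ∃ m₀ : ℕ, ∀ u : T, (∀ i < n, u i = t i) → m₀ ≤ u n →
    ‖g (none, u) - (ε : 𝕜) * g (some n, t)‖ ≤ δ

variable (𝕜)

/-- The space. -/
def XX (ε : ℝ) : Submodule 𝕜 (E 𝕜) where
  carrier := {g | Cond ε (g : I → 𝕜)}
  zero_mem' := by
    intro n t δ hδ
    exact ⟨0, fun u _ _ => by simp [hδ.le]⟩
  add_mem' := by
    intro f g hf hg n t δ hδ
    obtain ⟨m₁, h₁⟩ := hf n t (δ / 2) (by positivity)
    obtain ⟨m₂, h₂⟩ := hg n t (δ / 2) (by positivity)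
    refine ⟨max m₁ m₂, fun u hu hm => ?_⟩
    have e₁ := h₁ u hu ((le_max_left _ _).trans hm)
    have e₂ := h₂ u hu ((le_max_right _ _).trans hm)
    have : (f + g : E 𝕜) (none, u) - (ε : 𝕜) * (f + g : E 𝕜) (some n, t) =
        (f (none, u) - (ε : 𝕜) * f (some n, t)) + (g (none, u) - (ε : 𝕜) * g (some n, t)) := by
      simp only [lp.coeFn_add, Pi.add_apply]; ring
    rw [this]
    calc _ ≤ _ := norm_add_le _ _
      _ ≤ δ / 2 + δ / 2 := add_le_add e₁ e₂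
      _ = δ := by ring
  smul_mem' := by
    intro c f hf n t δ hδ
    obtain ⟨m₁, h₁⟩ := hf n t (δ / (‖c‖ + 1)) (by positivity)
    refine ⟨m₁, fun u hu hm => ?_⟩
    have e₁ := h₁ u hu hm
    have : (c • f : E 𝕜) (none, u) - (ε : 𝕜) * (c • f : E 𝕜) (some n, t) =
        c * (f (none, u) - (ε : 𝕜) * f (some n, t)) := by
      simp only [lp.coeFn_smul, Pi.smul_apply, smul_eq_mul]; ring
    rw [this, norm_mul]
    calc ‖c‖ * ‖f (none, u) - (ε : 𝕜) * f (some n, t)‖ ≤ ‖c‖ * (δ / (‖c‖ + 1)) :=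
          mul_le_mul_of_nonneg_left e₁ (norm_nonneg _)
      _ ≤ (‖c‖ + 1) * (δ / (‖c‖ + 1)) := by
          apply mul_le_mul_of_nonneg_right _ (by positivity); linarith
      _ = δ := by field_simp

lemma mem_XX {ε : ℝ} {g : E 𝕜} : g ∈ XX 𝕜 ε ↔ Cond ε (g : I → 𝕜) := Iff.rfl

lemma isClosed_XX (ε : ℝ) : IsClosed (XX 𝕜 ε : Set (E 𝕜)) := by
  apply isClosed_of_closure_subset
  intro f hf n t δ hδ
  obtain ⟨g, hg, hd⟩ := Metric.mem_closure_iff.1 hf (δ / (2 * (|ε| + 2))) (by positivity)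
  obtain ⟨m₁, h₁⟩ := (mem_XX 𝕜).1 hg n t (δ / 2) (by positivity)
  refine ⟨m₁, fun u hu hm => ?_⟩
  have e₁ := h₁ u hu hm
  rw [dist_eq_norm] at hd
  have k1 : ‖(f - g : E 𝕜) (none, u)‖ ≤ ‖f - g‖ := lp.norm_apply_le_norm ENNReal.top_ne_zero _ _
  have k2 : ‖(f - g : E 𝕜) (some n, t)‖ ≤ ‖f - g‖ := lp.norm_apply_le_norm ENNReal.top_ne_zero _ _
  have : f (none, u) - (ε : 𝕜) * f (some n, t) =
      (f - g : E 𝕜) (none, u) - (ε : 𝕜) * (f - g : E 𝕜) (some n, t) +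
        (g (none, u) - (ε : 𝕜) * g (some n, t)) := by
    simp only [lp.coeFn_sub, Pi.sub_apply]; ring
  rw [this]
  have k3 : ‖(f - g : E 𝕜) (none, u) - (ε : 𝕜) * (f - g : E 𝕜) (some n, t)‖ ≤
      (1 + |ε|) * ‖f - g‖ := by
    calc _ ≤ ‖(f - g : E 𝕜) (none, u)‖ + ‖(ε : 𝕜) * (f - g : E 𝕜) (some n, t)‖ := norm_sub_le _ _
      _ ≤ ‖f - g‖ + |ε| * ‖f - g‖ := by
          rw [norm_mul, RCLike.norm_ofReal]
          exact add_le_add k1 (mul_le_mul_of_nonneg_left k2 (abs_nonneg _))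
      _ = _ := by ring
  have k4 : (1 + |ε|) * ‖f - g‖ ≤ δ / 2 := by
    have h5 : (1 + |ε|) * ‖f - g‖ ≤ (1 + |ε|) * (δ / (2 * (|ε| + 2))) :=
      mul_le_mul_of_nonneg_left hd.le (by positivity)
    have h6 : (1 + |ε|) * (δ / (2 * (|ε| + 2))) ≤ (|ε| + 2) * (δ / (2 * (|ε| + 2))) := by
      apply mul_le_mul_of_nonneg_right _ (by positivity); linarith
    have h7 : (|ε| + 2) * (δ / (2 * (|ε| + 2))) = δ / 2 := by
      have : |ε| + 2 ≠ 0 := by positivity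
      field_simp
    linarith
  calc _ ≤ _ := norm_add_le _ _
    _ ≤ δ / 2 + δ / 2 := add_le_add (k3.trans k4) e₁
    _ = δ := by ring

/-- The space as a type. -/
def Sp (ε : ℝ) : Type := XX 𝕜 ε

noncomputable instance (ε : ℝ) : NormedAddCommGroup (Sp 𝕜 ε) :=
  inferInstanceAs (NormedAddCommGroup (XX 𝕜 ε))

noncomputable instance (ε : ℝ) : NormedSpace 𝕜 (Sp 𝕜 ε) :=
  inferInstanceAs (NormedSpace 𝕜 (XX 𝕜 ε))

instance (ε : ℝ) : CompleteSpace (Sp 𝕜 ε) :=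
  (isClosed_XX 𝕜 ε).completeSpace_coe

variable {𝕜} in
/-- the coordinate of an element -/
def Sp.co {ε : ℝ} (g : Sp 𝕜 ε) (i : I) : 𝕜 := (g.1 : E 𝕜) i

variable {𝕜} in
lemma Sp.co_le {ε : ℝ} (g : Sp 𝕜 ε) (i : I) : ‖g.co i‖ ≤ ‖g‖ :=
  lp.norm_apply_le_norm ENNReal.top_ne_zero g.1 i

variable {𝕜} in
lemma Sp.co_add {ε : ℝ} (f g : Sp 𝕜 ε) (i : I) : (f + g).co i = f.co i + g.co i := rfl

variable {𝕜} in
lemma Sp.co_smul {ε : ℝ} (c : 𝕜) (f : Sp 𝕜 ε) (i : I) : (c • f).co i = c * f.co i := rfl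

variable {𝕜} in
lemma Sp.cond {ε : ℝ} (g : Sp 𝕜 ε) : Cond ε g.co := g.2

/-- evaluation at a branch -/
noncomputable def evalb (ε : ℝ) (u : T) : StrongDual 𝕜 (Sp 𝕜 ε) :=
  LinearMap.mkContinuous
    { toFun := fun g => g.co (none, u)
      map_add' := fun f g => Sp.co_add f g _
      map_smul' := fun c g => Sp.co_smul c g _ } 1
    (fun g => by
      rw [one_mul]
      exact g.co_le _)

lemma evalb_apply (ε : ℝ) (u : T) (g : Sp 𝕜 ε) : evalb 𝕜 ε u g = g.co (none, u) := rfl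

/-- The set `A`. -/
noncomputable def AA (ε : ℝ) : Set (StrongDual 𝕜 (Sp 𝕜 ε)) := Set.range (evalb 𝕜 ε)

/-! ## The indicator functions -/

open Classical in
/-- indicator of `{u | ∀ i ∈ S, u i ≤ b i}` with its node values -/
noncomputable def chiFun (ε : ℝ) (S : Set ℕ) (b : T) : I → 𝕜
  | (none, u) => if ∀ i ∈ S, u i ≤ b i then 1 else 0
  | (some k, s) => if k ∈ S then 0 else if ∀ i ∈ S, s i ≤ b i then (ε : 𝕜)⁻¹ else 0

variable {𝕜}

lemma chiFun_le {ε : ℝ} (hε : 0 < ε) (hε1 : ε ≤ 1) (S : Set ℕ) (b : T) (i : I) :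
    ‖chiFun 𝕜 ε S b i‖ ≤ ε⁻¹ := by
  have h1 : (1 : ℝ) ≤ ε⁻¹ := (one_le_inv₀ hε).2 hε1
  rcases i with ⟨_ | k, u⟩
  · simp only [chiFun]
    split_ifs
    · simpa using h1
    · simpa using hε.le
  · simp only [chiFun]
    split_ifs
    · simpa using hε.le
    · rw [norm_inv, RCLike.norm_ofReal, abs_of_pos hε]
    · simpa using hε.le

lemma chiFun_cond {ε : ℝ} (hε : 0 < ε) (S : Set ℕ) (hS : IsLowerSet S) (b : T) :
    Cond ε (chiFun 𝕜 ε S b) := by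
  intro n t δ hδ
  by_cases hn : n ∈ S
  · refine ⟨b n + 1, fun u hu hm => ?_⟩
    have h1 : ¬ ∀ i ∈ S, u i ≤ b i := fun h => by
      have := h n hn; omega
    simp only [chiFun]
    rw [if_neg h1, if_pos hn]
    simpa using hδ.le
  · refine ⟨0, fun u hu _ => ?_⟩
    have h1 : (∀ i ∈ S, u i ≤ b i) ↔ (∀ i ∈ S, t i ≤ b i) := by
      have h2 : ∀ i ∈ S, i < n := by
        intro i hi
        by_contra hcon
        exact hn (hS (not_lt.1 hcon) hi)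
      constructor
      · intro h i hi; rw [← hu i (h2 i hi)]; exact h i hi
      · intro h i hi; rw [hu i (h2 i hi)]; exact h i hi
    simp only [chiFun]
    rw [if_neg hn]
    by_cases h3 : ∀ i ∈ S, t i ≤ b i
    · rw [if_pos h3, if_pos (h1.2 h3)]
      have : (ε : 𝕜) * (ε : 𝕜)⁻¹ = 1 := mul_inv_cancel₀ (by
        simpa using hε.ne')
      rw [this]; simpa using hδ.le
    · rw [if_neg h3, if_neg (fun h => h3 (h1.1 h))]
      simpa using hδ.le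

/-- the indicator functions as elements of the space -/
noncomputable def chi {ε : ℝ} (hε : 0 < ε) (hε1 : ε ≤ 1) (S : Set ℕ) (hS : IsLowerSet S) (b : T) :
    Sp 𝕜 ε :=
  ⟨⟨chiFun 𝕜 ε S b, memℓp_infty ⟨ε⁻¹, by rintro _ ⟨i, rfl⟩; exact chiFun_le hε hε1 S b i⟩⟩,
    chiFun_cond hε S hS b⟩

lemma chi_co {ε : ℝ} (hε : 0 < ε) (hε1 : ε ≤ 1) (S : Set ℕ) (hS : IsLowerSet S) (b : T) (i : I) :
    (chi hε hε1 S hS b : Sp 𝕜 ε).co i = chiFun 𝕜 ε S b i := rfl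

lemma Sp.norm_le {ε : ℝ} (g : Sp 𝕜 ε) (C : ℝ) (hC : 0 ≤ C) (h : ∀ i, ‖g.co i‖ ≤ C) : ‖g‖ ≤ C :=
  lp.norm_le_of_forall_le hC h

lemma Sp.ext' {ε : ℝ} (f g : Sp 𝕜 ε) (h : ∀ i, f.co i = g.co i) : f = g := by
  apply Subtype.ext
  apply Subtype.ext
  funext i
  exact h i

lemma chi_norm_le {ε : ℝ} (hε : 0 < ε) (hε1 : ε ≤ 1) (S : Set ℕ) (hS : IsLowerSet S) (b : T) :
    ‖(chi hε hε1 S hS b : Sp 𝕜 ε)‖ ≤ ε⁻¹ :=
  Sp.norm_le _ _ (inv_nonneg.2 hε.le) (fun i => chiFun_le hε hε1 S b i)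

lemma chi_univ_norm_le {ε : ℝ} (hε : 0 < ε) (hε1 : ε ≤ 1) (b : T) :
    ‖(chi hε hε1 Set.univ isLowerSet_univ b : Sp 𝕜 ε)‖ ≤ 1 := by
  refine Sp.norm_le _ _ zero_le_one (fun i => ?_)
  rw [chi_co]
  rcases i with ⟨_ | k, u⟩
  · simp only [chiFun]
    split_ifs <;> simp
  · simp [chiFun]

open Classical in
lemma evalb_chi {ε : ℝ} (hε : 0 < ε) (hε1 : ε ≤ 1) (S : Set ℕ) (hS : IsLowerSet S) (b u : T) :
    evalb 𝕜 ε u (chi hε hε1 S hS b) = if ∀ i ∈ S, u i ≤ b i then 1 else 0 := by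
  rw [evalb_apply, chi_co]
  rfl

/-! ## Lower bound for `d₁` -/

/-- `χ_{Iio n}` depends only on the first `n` values of `b` -/
lemma chi_congr {ε : ℝ} (hε : 0 < ε) (hε1 : ε ≤ 1) (n : ℕ) (b b' : T) (h : ∀ i < n, b i = b' i) :
    (chi hε hε1 (Set.Iio n) (isLowerSet_Iio n) b : Sp 𝕜 ε) =
      chi hε hε1 (Set.Iio n) (isLowerSet_Iio n) b' := by
  apply Sp.ext'
  intro i
  rw [chi_co, chi_co]
  have key : ∀ u : T, (∀ i ∈ Set.Iio n, u i ≤ b i) = (∀ i ∈ Set.Iio n, u i ≤ b' i) := by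
    intro u
    apply propext
    constructor
    · intro hh i hi; rw [← h i hi]; exact hh i hi
    · intro hh i hi; rw [h i hi]; exact hh i hi
  rcases i with ⟨_ | k, u⟩
  · simp only [chiFun]; congr 1; exact key u
  · simp only [chiFun]; congr 1; congr 1; exact key u

lemma cover_eq {ε : ℝ} (P : ℕ → T → Prop) (hP : ∀ u, ∃ k, P k u) :
    ⋃ k, {ξ | ∃ u, P k u ∧ evalb 𝕜 ε u = ξ} = AA 𝕜 ε := by
  ext ξ
  constructor
  · intro h
    obtain ⟨k, u, _, hu⟩ := Set.mem_iUnion.1 h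
    exact ⟨u, hu⟩
  · rintro ⟨u, rfl⟩
    obtain ⟨k, hk⟩ := hP u
    exact Set.mem_iUnion.2 ⟨k, u, hk, rfl⟩

lemma norm_sub_le' {ε : ℝ} (x y : Sp 𝕜 ε) (hx : ‖x‖ ≤ ε⁻¹) (hy : ‖y‖ ≤ ε⁻¹) :
    ‖x - y‖ ≤ 2 * ε⁻¹ := by
  calc _ ≤ _ := norm_sub_le _ _
    _ ≤ ε⁻¹ + ε⁻¹ := add_le_add hx hy
    _ = _ := by ring

lemma lower_a {ε : ℝ} (hε : 0 < ε) (hε1 : ε ≤ 1) (ζ : StrongDual 𝕜 (Sp 𝕜 ε))
    (hζ : ζ ∈ Ienv (AA 𝕜 ε)) (b : T) :
    ζ (chi hε hε1 (Set.Iio 0) (isLowerSet_Iio 0) b) = 1 := by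
  have h := tendsto_of_mem_Ienv hζ (fun _ => chi hε hε1 (Set.Iio 0) (isLowerSet_Iio 0) b) ε⁻¹
      (fun m => chi_norm_le _ _ _ _ _) 1 _
      (cover_eq (fun k u => True) (fun u => ⟨0, trivial⟩)) (by
        rintro k _ ⟨u, _, rfl⟩ m hm
        rw [evalb_chi]; simp)
  exact tendsto_nhds_unique tendsto_const_nhds h

lemma lower_b {ε : ℝ} (hε : 0 < ε) (hε1 : ε ≤ 1) (ζ : StrongDual 𝕜 (Sp 𝕜 ε))
    (hζ : ζ ∈ Ienv (AA 𝕜 ε)) (n : ℕ) (b : T) :
    Tendsto (fun m => ζ (chi hε hε1 (Set.Iio n) (isLowerSet_Iio n) b -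
      chi hε hε1 (Set.Iio (n + 1)) (isLowerSet_Iio (n + 1)) (Function.update b n m)))
      atTop (𝓝 0) := by
  classical
  refine tendsto_of_mem_Ienv hζ _ (2 * ε⁻¹)
    (fun m => norm_sub_le' _ _ (chi_norm_le _ _ _ _ _) (chi_norm_le _ _ _ _ _)) 0 _
    (cover_eq (fun k u => u n ≤ k) (fun u => ⟨u n, le_rfl⟩)) ?_
  rintro k _ ⟨u, hu, rfl⟩ m hm
  have : (∀ i ∈ Set.Iio n, u i ≤ b i) =
      (∀ i ∈ Set.Iio (n + 1), u i ≤ Function.update b n m i) := by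
    apply propext
    constructor
    · intro h i hi
      by_cases hin : i = n
      · subst hin; simp; omega
      · rw [Function.update_of_ne hin]
        apply h; simp only [Set.mem_Iio] at hi ⊢; omega
    · intro h i hi
      have h1 := h i (by simp only [Set.mem_Iio] at hi ⊢; omega)
      rwa [Function.update_of_ne (by simp only [Set.mem_Iio] at hi; omega)] at h1
  rw [ContinuousLinearMap.map_sub, evalb_chi, evalb_chi, sub_eq_zero]
  congr 1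

lemma lower_c {ε : ℝ} (hε : 0 < ε) (hε1 : ε ≤ 1) (ζ : StrongDual 𝕜 (Sp 𝕜 ε))
    (hζ : ζ ∈ Ienv (AA 𝕜 ε)) (b : T) :
    Tendsto (fun n => ζ (chi hε hε1 (Set.Iio n) (isLowerSet_Iio n) b -
      chi hε hε1 Set.univ isLowerSet_univ b)) atTop (𝓝 0) := by
  classical
  refine tendsto_of_mem_Ienv hζ _ (2 * ε⁻¹)
    (fun m => norm_sub_le' _ _ (chi_norm_le _ _ _ _ _) (chi_norm_le _ _ _ _ _)) 0 _
    (cover_eq (fun k u => (∀ i < k, u i ≤ b i) → ∀ i, u i ≤ b i) (fun u => ?_)) ?_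
  · by_cases h : ∀ i, u i ≤ b i
    · exact ⟨0, fun _ => h⟩
    · push Not at h
      obtain ⟨i, hi⟩ := h
      refine ⟨i + 1, fun h => ?_⟩
      have := h i (Nat.lt_succ_self i)
      omega
  · rintro k _ ⟨u, hu, rfl⟩ m hm
    have : (∀ i ∈ Set.Iio m, u i ≤ b i) = (∀ i ∈ Set.univ, u i ≤ b i) := by
      apply propext
      constructor
      · intro h i _
        exact hu (fun j hj => h j (by simp only [Set.mem_Iio]; omega)) i
      · intro h i _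
        exact h i (Set.mem_univ _)
    rw [ContinuousLinearMap.map_sub, evalb_chi, evalb_chi, sub_eq_zero]
    congr 1

lemma one_le_norm {ε : ℝ} (hε : 0 < ε) (hε1 : ε ≤ 1) (ζ : StrongDual 𝕜 (Sp 𝕜 ε))
    (hζ : ζ ∈ Ienv (AA 𝕜 ε)) : 1 ≤ ‖ζ‖ :=
  one_le_norm_of ζ (fun n b => chi hε hε1 (Set.Iio n) (isLowerSet_Iio n) b)
    (fun b => chi hε hε1 Set.univ isLowerSet_univ b) (chi_congr hε hε1) (lower_a hε hε1 ζ hζ)
    (lower_b hε hε1 ζ hζ) (lower_c hε hε1 ζ hζ) (chi_univ_norm_le hε hε1)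

lemma one_le_dOne {ε : ℝ} (hε : 0 < ε) (hε1 : ε ≤ 1) :
    1 ≤ dOne (AA 𝕜 ε) (0 : StrongDual 𝕜 (Sp 𝕜 ε)) := by
  have h : (1 : ENNReal) ≤ Metric.infEDist (0 : StrongDual 𝕜 (Sp 𝕜 ε)) (Ienv (AA 𝕜 ε)) := by
    rw [Metric.le_infEDist]
    intro ζ hζ
    rw [edist_comm, edist_zero_right, ← ofReal_norm, ← ENNReal.ofReal_one]
    exact ENNReal.ofReal_le_ofReal (one_le_norm hε hε1 ζ hζ)
  unfold dOne
  exact_mod_cast h

/-! ## Upper bound for `d₂` -/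

lemma dTwo_le {ε : ℝ} (hε : 0 < ε) : dTwo (AA 𝕜 ε) (0 : StrongDual 𝕜 (Sp 𝕜 ε)) ≤ ε := by
  refine iSup_le ?_
  rintro ⟨x, hx⟩
  have hex : ∀ (n : ℕ) (t : T), ∃ m₀ : ℕ, ∀ u : T, (∀ i < n, u i = t i) → m₀ ≤ u n →
      ‖(x n).co (none, u) - (ε : 𝕜) * (x n).co (some n, t)‖ ≤ 1 / ((n : ℝ) + 1) :=
    fun n t => (x n).cond n t _ (by positivity)
  choose m hm using hex
  obtain ⟨u, hu⟩ := rec_choice m
  have hlow : ∀ n : ℕ, -ε - 1 / ((n : ℝ) + 1) ≤ RCLike.re (evalb 𝕜 ε u (x n)) := by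
    intro n
    obtain ⟨t, ht1, ht2⟩ := hu n
    have h1 := hm n t u ht1 ht2.ge
    have h2 : ‖(x n).co (some n, t)‖ ≤ 1 := ((x n).co_le _).trans (hx n)
    rw [evalb_apply]
    have h3 : ‖(x n).co (none, u)‖ ≤ ε + 1 / ((n : ℝ) + 1) := by
      calc ‖(x n).co (none, u)‖ = ‖((x n).co (none, u) - (ε : 𝕜) * (x n).co (some n, t)) +
            (ε : 𝕜) * (x n).co (some n, t)‖ := by congr 1; ring
        _ ≤ _ := norm_add_le _ _
        _ ≤ 1 / ((n : ℝ) + 1) + ε * 1 := by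
            refine add_le_add h1 ?_
            rw [norm_mul, RCLike.norm_ofReal, abs_of_pos hε]
            exact mul_le_mul_of_nonneg_left h2 hε.le
        _ = _ := by ring
    have h4 := (abs_le.1 ((RCLike.abs_re_le_norm ((x n).co (none, u))).trans h3)).1
    linarith
  have hlim : ((-ε : ℝ) : EReal) ≤
      limsup (fun k => ((RCLike.re (evalb 𝕜 ε u (x k)) : ℝ) : EReal)) atTop := by
    have ht : Tendsto (fun n : ℕ => -ε - 1 / ((n : ℝ) + 1)) atTop (𝓝 (-ε - 0)) :=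
      tendsto_const_nhds.sub tendsto_one_div_add_atTop_nhds_zero_nat
    rw [sub_zero] at ht
    have ht' : Tendsto (fun n : ℕ => ((-ε - 1 / ((n : ℝ) + 1) : ℝ) : EReal)) atTop
        (𝓝 ((-ε : ℝ) : EReal)) := EReal.tendsto_coe.2 ht
    rw [← ht'.limsup_eq]
    exact limsup_le_limsup (Filter.Eventually.of_forall (fun n =>
      EReal.coe_le_coe_iff.2 (hlow n)))
  have hsup : ((-ε : ℝ) : EReal) ≤ ⨆ ξ ∈ AA 𝕜 ε,
      limsup (fun k => ((RCLike.re (ξ (x k)) : ℝ) : EReal)) atTop :=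
    hlim.trans (le_iSup₂_of_le (evalb 𝕜 ε u) ⟨u, rfl⟩ le_rfl)
  have hinf : (⨅ k, ((RCLike.re ((0 : StrongDual 𝕜 (Sp 𝕜 ε)) (x k)) : ℝ) : EReal)) = 0 := by
    simp
  unfold sep
  rw [hinf]
  calc (0 : EReal) - _ ≤ 0 - ((-ε : ℝ) : EReal) := EReal.sub_le_sub le_rfl hsup
    _ = ε := by
      rw [zero_sub, EReal.coe_neg, neg_neg]

end Pool.Agent.H87.Envelope
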